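import Pool.Agent.Helper57.KE.St

/-!
# Project KE: the two-sided kernel by averaging over cuts
-/

set_option autoImplicit false

open scoped BigOperators
open Finset

namespace Pool.Agent.Helper9.KE

open Pool.Agent.Helper65.RG Pool.Agent.Helper57.KR Pool.Agent.Helper57.KE

private lemma lin_geom {δ : ℝ} (hδ : 0 < δ) (K : ℕ) :
    ∑ k ∈ range K, (k : ℝ) * ((1 + δ)⁻¹) ^ (k + 1) ≤ (δ ^ 2)⁻¹ := by
  cases K with
  | zero =>
    simp only [range_zero, sum_empty]
    positivity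
  | succ K =>
    set q : ℝ := (1 + δ)⁻¹ with hq
    have hq0 : 0 < q := by positivity
    have hq1 : q ≤ 1 := inv_le_one_of_one_le₀ (by linarith)
    have e : 1 - q = δ * q := by
      rw [hq]
      field_simp
      ring
    rw [sum_range_succ']
    set X := ∑ k ∈ range K, q ^ (k + 1) * ((k : ℝ) + 1) with hX
    have h1 : ∑ k ∈ range K, ((k + 1 : ℕ) : ℝ) * q ^ (k + 1 + 1) = q * X := by
      rw [hX, mul_sum]
      refine sum_congr rfl fun k _ => ?_
      push_cast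
      ring
    have h3 := arith_geom hq0.le hq1 K
    rw [← hX, e] at h3
    have h4 : q * (δ ^ 2 * (q * X)) ≤ q * 1 := by
      calc q * (δ ^ 2 * (q * X)) = (δ * q) ^ 2 * X := by ring
        _ ≤ q := h3
        _ = q * 1 := by ring
    have h5 : δ ^ 2 * (q * X) ≤ 1 := le_of_mul_le_mul_left h4 hq0
    rw [h1]
    have h6 : q * X ≤ (δ ^ 2)⁻¹ := by
      rw [← one_div, le_div_iff₀ (by positivity)]
      linarith
    simpa using h6

private lemma kb_lin {δ : ℝ} (hδ : 0 < δ) (N : ℕ) :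
    KB (fun i j : Fin (N + 1) => k1 δ i j * (((i : ℕ) - (j : ℕ) : ℕ) : ℝ)) (δ ^ 2)⁻¹ := by
  have hd : 0 ≤ (δ ^ 2)⁻¹ := by positivity
  have hkey : ∀ i j : ℕ, k1 δ i j * ((i - j : ℕ) : ℝ) =
      if j ≤ i then (fun k : ℕ => (k : ℝ) * ((1 + δ)⁻¹) ^ (k + 1)) (i - j) else 0 := by
    intro i j
    unfold k1
    split_ifs
    · ring
    · ring
  have := KB.schur (ι := Fin (N + 1))
    (K := fun i j => k1 δ i j * (((i : ℕ) - (j : ℕ) : ℕ) : ℝ)) (h := fun _ => 1)
    (A := (δ ^ 2)⁻¹) (B := (δ ^ 2)⁻¹) (fun _ => one_pos)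
    (fun i j => by have := k1_nonneg hδ (i : ℕ) j; positivity) hd hd ?_ ?_
  · rwa [Real.mul_self_sqrt hd] at this
  · intro i
    simp only [mul_one, hkey]
    rw [Fin.sum_univ_eq_sum_range (fun j => if j ≤ (i : ℕ) then
      (((i : ℕ) - j : ℕ) : ℝ) * ((1 + δ)⁻¹) ^ ((i : ℕ) - j + 1) else 0) (N + 1)]
    exact sum_row (g := fun k => (k : ℝ) * ((1 + δ)⁻¹) ^ (k + 1)) (lin_geom hδ)
      (by have := i.isLt; omega)
  · intro j
    simp only [mul_one, hkey]
    rw [Fin.sum_univ_eq_sum_range (fun i => if (j : ℕ) ≤ i then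
      ((i - (j : ℕ) : ℕ) : ℝ) * ((1 + δ)⁻¹) ^ (i - (j : ℕ) + 1) else 0) (N + 1)]
    exact sum_col (g := fun k => (k : ℝ) * ((1 + δ)⁻¹) ^ (k + 1)) (lin_geom hδ)
      (by have := j.isLt; omega)

private lemma kb_sum {ι : Type*} [Fintype ι] (P : Finset ℕ) (K : ℕ → ι → ι → ℝ) (C : ℝ)
    (h : ∀ m, KB (K m) C) : KB (fun i j => ∑ m ∈ P, K m i j) ((P.card : ℝ) * C) := by
  induction P using Finset.induction_on with
  | empty =>
    intro x y hx hy
    simp
  | insert a s ha ih =>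
    refine ((h a).add ih).mono (fun i j => ?_) ?_
    · rw [Finset.sum_insert ha]
    · rw [Finset.card_insert_of_notMem ha]
      push_cast
      linarith

private lemma pow_quad {δ : ℝ} (hδ : 0 ≤ δ) (n : ℕ) :
    1 + n * δ + (n * (n - 1) / 2) * δ ^ 2 ≤ (1 + δ) ^ n := by
  induction n with
  | zero => simp
  | succ n ih =>
    have h1 : (1 + n * δ + (n * (n - 1) / 2) * δ ^ 2) * (1 + δ) ≤ (1 + δ) ^ (n + 1) := by
      rw [pow_succ]
      exact mul_le_mul_of_nonneg_right ih (by linarith)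
    have h2 : (0 : ℝ) ≤ (n * ((n : ℝ) - 1) / 2) * δ ^ 3 := by
      have h3 : (0 : ℝ) ≤ (n : ℝ) * ((n : ℝ) - 1) := by
        rcases Nat.eq_zero_or_pos n with h | h
        · rw [h]; simp
        · have : (1 : ℝ) ≤ (n : ℝ) := by exact_mod_cast h
          apply mul_nonneg <;> linarith
      positivity
    push_cast
    nlinarith [h1, h2]

theorem hBIG : StBIG := by
  intro φ Φ B C δ M N hφ hφΦ hconst hMN hN hδ hδ1 hC hB hA hB2
  have hΦ : 0 < Φ := by rw [← hconst M le_rfl]; exact hφ M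
  have hR : KB (fun i j : Fin (N + 1) => k1 δ i j * (φ (N - j) / φ (N - i))) (C * δ⁻¹) := by
    have h2 := (hA.transpose).reindex (Fin.revPerm)
    simp only [Fin.revPerm_apply] at h2
    refine h2.mono ?_ le_rfl
    intro i j
    have hi := i.isLt
    have hj := j.isLt
    simp only [Fin.val_rev]
    have e1 : N + 1 - ((i : ℕ) + 1) = N - i := by omega
    have e2 : N + 1 - ((j : ℕ) + 1) = N - j := by omega
    rw [e1, e2]
    unfold k1
    by_cases h : (j : ℕ) ≤ i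
    · rw [if_pos h, if_pos (by omega)]
      have e3 : N - (j : ℕ) - (N - i) = i - j := by omega
      rw [e3]
    · rw [if_neg h, if_neg (by omega), zero_mul]
  have hN0 : (0 : ℝ) < (N : ℝ) + 1 := by positivity
  obtain ⟨P, hPm, hPc⟩ : ∃ P : Finset ℕ, (∀ m ∈ P, N < 4 * m ∧ 4 * m ≤ 3 * N) ∧
      N + 1 ≤ 4 * P.card := by
    refine ⟨Finset.Ioc (N / 4) (3 * N / 4), fun m hm => ?_, ?_⟩
    · rw [mem_Ioc] at hm
      omega
    · rw [Nat.card_Ioc]
      omega
  have hPc' : ((N : ℝ) + 1) ≤ 4 * (P.card : ℝ) := by exact_mod_cast hPc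
  have hp0 : (0 : ℝ) < (P.card : ℝ) := by linarith
  let Km : ℕ → Fin (N + 1) → Fin (N + 1) → ℝ := fun m i j =>
    if (i : ℕ) < m ∧ (j : ℕ) < m then k1 δ i j * (φ i / φ j) else
      if ¬ (i : ℕ) < m ∧ ¬ (j : ℕ) < m then k1 δ i j * (φ (N - j) / φ (N - i)) else 0
  have hKm : ∀ m, KB (Km m) (C * δ⁻¹) := fun m =>
    kb_block hA hR (by positivity) (fun i : Fin (N + 1) => (i : ℕ) < m)
  have havg := (kb_sum P Km _ hKm).smul (c := (P.card : ℝ)⁻¹) (by positivity)
  set D : ℝ := 128 / (((N : ℝ) + 1) * δ) ^ 2 * Φ ^ 2 with hD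
  have hDp : 0 ≤ D := by positivity
  have hCC : KB (fun i j : Fin (N + 1) => D * ((φ (N - i))⁻¹ * (φ j)⁻¹))
      (128 * B / (((N : ℝ) + 1) * δ ^ 2)) := by
    have h1 := (KB.rankOne (K := fun i j : Fin (N + 1) => (φ (N - i))⁻¹ * (φ j)⁻¹)
      (u := fun i : Fin (N + 1) => (φ (N - i))⁻¹) (v := fun j : Fin (N + 1) => (φ j)⁻¹)
      (fun i j => le_rfl)).smul hDp
    refine h1.mono (fun i j => le_rfl) ?_
    have e1 : ∑ i : Fin (N + 1), ((φ (N - i))⁻¹) ^ 2 = ∑ j ∈ range (N + 1), (φ j ^ 2)⁻¹ := by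
      rw [← Equiv.sum_comp Fin.revPerm,
        ← Fin.sum_univ_eq_sum_range (fun j => (φ j ^ 2)⁻¹) (N + 1)]
      refine sum_congr rfl fun i _ => ?_
      rw [Fin.revPerm_apply, Fin.val_rev]
      have : N - (N + 1 - ((i : ℕ) + 1)) = i := by have := i.isLt; omega
      rw [this, inv_pow]
    have e2 : ∑ i : Fin (N + 1), ((φ i)⁻¹) ^ 2 = ∑ j ∈ range (N + 1), (φ j ^ 2)⁻¹ := by
      rw [← Fin.sum_univ_eq_sum_range (fun j => (φ j ^ 2)⁻¹) (N + 1)]
      refine sum_congr rfl fun i _ => ?_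
      rw [inv_pow]
    rw [e1, e2, Real.mul_self_sqrt (sum_nonneg fun i _ => by positivity)]
    calc D * ∑ j ∈ range (N + 1), (φ j ^ 2)⁻¹
        = 128 / (((N : ℝ) + 1) * δ) ^ 2 * (Φ ^ 2 * ∑ j ∈ range (N + 1), (φ j ^ 2)⁻¹) := by
          rw [hD]; ring
      _ ≤ 128 / (((N : ℝ) + 1) * δ) ^ 2 * (B * ((N : ℝ) + 1)) := by gcongr
      _ = 128 * B / (((N : ℝ) + 1) * δ ^ 2) := by field_simp
  have hlin := (kb_lin hδ N).smul (c := 4 / ((N : ℝ) + 1)) (by positivity)
  have hS := (havg.add hlin).add hCC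
  refine hS.mono ?_ (le_of_eq ?_)
  swap
  · field_simp
    ring
  intro i j
  have p1 := hφ i
  have p2 := hφ j
  have p3 := hφ (N - i)
  have p4 := hφ (N - j)
  have hk := k1_nonneg hδ (i : ℕ) j
  have hi := i.isLt
  have hj := j.isLt
  have e0 : (φ i / φ (N - i)) / (φ j / φ (N - j)) = (φ i / φ j) * (φ (N - j) / φ (N - i)) := by
    field_simp
  rw [e0]
  set T : ℝ := k1 δ i j * ((φ i / φ j) * (φ (N - j) / φ (N - i))) with hT
  have hT0 : 0 ≤ T := by positivity
  have hKm0 : ∀ m, 0 ≤ Km m i j := by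
    intro m
    simp only [Km]
    split_ifs <;> positivity
  have hsum0 : 0 ≤ ∑ m ∈ P, Km m i j := sum_nonneg fun m _ => hKm0 m
  have t1 : 0 ≤ (P.card : ℝ)⁻¹ * ∑ m ∈ P, Km m i j := by positivity
  set E1 : ℝ := 4 / ((N : ℝ) + 1) * (k1 δ i j * (((i : ℕ) - (j : ℕ) : ℕ) : ℝ)) with hE1
  set E2 : ℝ := D * ((φ (N - i))⁻¹ * (φ j)⁻¹) with hE2
  have t2 : 0 ≤ E1 := by positivity
  have t3 : 0 ≤ E2 := by positivity
  by_cases hij : (j : ℕ) ≤ i
  swap
  · have hk0 : k1 δ i j = 0 := by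
      unfold k1
      rw [if_neg hij]
    have hT00 : T = 0 := by rw [hT, hk0, zero_mul]
    rw [hT00]
    linarith
  set F : Finset ℕ := P.filter fun m => (j : ℕ) < m ∧ m ≤ (i : ℕ) with hF
  have hm : ∀ m ∈ P, T ≤ Km m i j + (if (j : ℕ) < m ∧ m ≤ (i : ℕ) then T else 0) := by
    intro m hmP
    obtain ⟨m1, m2⟩ := hPm m hmP
    by_cases h1 : (i : ℕ) < m
    · have h2 : (j : ℕ) < m := by omega
      have e : Km m i j = T := by
        simp only [Km]
        rw [if_pos ⟨h1, h2⟩, hT, hconst (N - i) (by omega), hconst (N - j) (by omega),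
          div_self hΦ.ne', mul_one]
      rw [e, if_neg (by omega)]
      linarith
    · by_cases h2 : (j : ℕ) < m
      · rw [if_pos ⟨h2, by omega⟩]
        have := hKm0 m
        linarith
      · have e : Km m i j = T := by
          simp only [Km]
          rw [if_neg (by omega), if_pos ⟨h1, h2⟩, hT, hconst i (by omega), hconst j (by omega),
            div_self hΦ.ne', one_mul]
        rw [e, if_neg (by omega)]
        linarith
  have hsum : (P.card : ℝ) * T ≤ ∑ m ∈ P, Km m i j + (F.card : ℝ) * T := by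
    calc (P.card : ℝ) * T = ∑ m ∈ P, T := by rw [sum_const, nsmul_eq_mul]
      _ ≤ ∑ m ∈ P, (Km m i j + (if (j : ℕ) < m ∧ m ≤ (i : ℕ) then T else 0)) := sum_le_sum hm
      _ = _ := by rw [sum_add_distrib, ← sum_filter, sum_const, nsmul_eq_mul]
  have hFP : (F.card : ℝ) ≤ (P.card : ℝ) := by exact_mod_cast card_filter_le _ _
  have hFij : (F.card : ℝ) ≤ (((i : ℕ) - (j : ℕ) : ℕ) : ℝ) := by
    have : F.card ≤ (i : ℕ) - j := by
      calc F.card ≤ (Finset.Ioc (j : ℕ) i).card := card_le_card (fun m hm => by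
            rw [hF, mem_filter] at hm
            exact mem_Ioc.2 hm.2)
        _ = _ := Nat.card_Ioc _ _
    exact_mod_cast this
  have hex : (F.card : ℝ) * T ≤ (P.card : ℝ) * (E1 + E2) := by
    rcases Nat.eq_zero_or_pos F.card with h0 | h0
    · rw [h0]
      push_cast
      rw [zero_mul]
      positivity
    obtain ⟨m, hmF⟩ := Finset.card_pos.1 h0
    rw [hF, mem_filter] at hmF
    obtain ⟨hmP, m3, m4⟩ := hmF
    obtain ⟨m1, m2⟩ := hPm m hmP
    by_cases hc : M ≤ (j : ℕ) ∧ (i : ℕ) + M ≤ N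
    · have e : T = k1 δ i j := by
        rw [hT, hconst i (by omega), hconst j hc.1, hconst (N - i) (by omega),
          hconst (N - j) (by omega), div_self hΦ.ne', mul_one, mul_one]
      have h7 : (F.card : ℝ) * T ≤ (P.card : ℝ) * E1 := by
        rw [e]
        have h6 : 1 ≤ (P.card : ℝ) * (4 / ((N : ℝ) + 1)) := by
          rw [mul_div_assoc', le_div_iff₀ hN0]
          linarith
        calc (F.card : ℝ) * k1 δ i j ≤ (((i : ℕ) - (j : ℕ) : ℕ) : ℝ) * k1 δ i j :=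
              mul_le_mul_of_nonneg_right hFij hk
          _ = 1 * (k1 δ i j * (((i : ℕ) - (j : ℕ) : ℕ) : ℝ)) := by ring
          _ ≤ ((P.card : ℝ) * (4 / ((N : ℝ) + 1))) *
                (k1 δ i j * (((i : ℕ) - (j : ℕ) : ℕ) : ℝ)) :=
              mul_le_mul_of_nonneg_right h6 (by positivity)
          _ = _ := by rw [hE1]; ring
      have h8 : 0 ≤ (P.card : ℝ) * E2 := by positivity
      rw [mul_add]
      linarith
    · have hlen : N + 1 ≤ 8 * ((i : ℕ) - j + 1) := by omega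
      have hlen' : ((N : ℝ) + 1) ≤ 8 * (((i : ℕ) - (j : ℕ) + 1 : ℕ) : ℝ) := by exact_mod_cast hlen
      have hk2 : k1 δ i j ≤ 128 / (((N : ℝ) + 1) * δ) ^ 2 := by
        unfold k1
        rw [if_pos hij, inv_pow]
        set n : ℕ := (i : ℕ) - (j : ℕ) + 1 with hn
        have hn1 : (1 : ℝ) ≤ (n : ℝ) := by exact_mod_cast (by omega : 1 ≤ n)
        have h1 := pow_quad hδ.le n
        have h2 : (n : ℝ) ^ 2 * δ ^ 2 / 2 ≤ (1 + δ) ^ n := by
          refine le_trans ?_ h1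
          have h3 : (n : ℝ) * δ ^ 2 ≤ n * δ := by
            have : δ ^ 2 ≤ δ := by nlinarith
            exact mul_le_mul_of_nonneg_left this (by linarith)
          nlinarith
        have h4 : (((N : ℝ) + 1) * δ) ^ 2 / 128 ≤ (1 + δ) ^ n := by
          refine le_trans ?_ h2
          have h5 : ((N : ℝ) + 1) ^ 2 ≤ (8 * (n : ℝ)) ^ 2 := by gcongr
          have h6 : ((N : ℝ) + 1) ^ 2 * δ ^ 2 ≤ (8 * (n : ℝ)) ^ 2 * δ ^ 2 :=
            mul_le_mul_of_nonneg_right h5 (by positivity)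
          nlinarith
        calc ((1 + δ) ^ n)⁻¹ ≤ ((((N : ℝ) + 1) * δ) ^ 2 / 128)⁻¹ :=
              inv_anti₀ (by positivity) h4
          _ = _ := by rw [inv_div]
      have hTle : T ≤ E2 := by
        calc T ≤ k1 δ i j * ((Φ / φ j) * (Φ / φ (N - i))) := by
              rw [hT]
              have := hφΦ i
              have := hφΦ (N - j)
              gcongr
          _ ≤ (128 / (((N : ℝ) + 1) * δ) ^ 2) * ((Φ / φ j) * (Φ / φ (N - i))) :=
              mul_le_mul_of_nonneg_right hk2 (by positivity)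
          _ = _ := by
              rw [hE2, hD, div_eq_mul_inv Φ, div_eq_mul_inv Φ]
              ring
      calc (F.card : ℝ) * T ≤ (P.card : ℝ) * E2 :=
            mul_le_mul hFP hTle hT0 (by positivity)
        _ ≤ (P.card : ℝ) * (E1 + E2) := mul_le_mul_of_nonneg_left (by linarith) hp0.le
  have hfin : (P.card : ℝ) * T ≤ (P.card : ℝ) * ((P.card : ℝ)⁻¹ * ∑ m ∈ P, Km m i j + E1 + E2) := by
    have e : (P.card : ℝ) * ((P.card : ℝ)⁻¹ * ∑ m ∈ P, Km m i j + E1 + E2) =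
        ∑ m ∈ P, Km m i j + (P.card : ℝ) * (E1 + E2) := by
      field_simp
      ring
    rw [e]
    linarith
  exact le_of_mul_le_mul_left hfin hp0

end Pool.Agent.Helper9.KE
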